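import Pool.Agent.H60.Godefroy.Norming
import Pool.Agent.Godefroy.Tight

set_option autoImplicit false

namespace Pool.Agent.H60.Godefroy

open Set Pool.Agent.Godefroy Pool.Agent.Godefroy.RhoSystem Topology

/-- The well ordered set of type `ω₁`. -/
abbrev W : Type := (Cardinal.aleph 1).ord.ToType

theorem countable_Iio (a : W) : (Iio a).Countable := by
  have h := Cardinal.mk_Iio_toType_ord_lt (c := Cardinal.aleph 1) a
  exact Cardinal.le_aleph0_iff_set_countable.1 (Cardinal.lt_aleph_one_iff.1 h)

theorem mk_W : Cardinal.mk W = Cardinal.aleph 1 := by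
  rw [Cardinal.mk_toType, Cardinal.card_ord]

theorem exists_gt_countable (C : Set W) (hC : C.Countable) : ∃ δ : W, ∀ γ ∈ C, γ < δ := by
  by_contra hcon
  push Not at hcon
  have huniv : (univ : Set W) ⊆ ⋃ γ ∈ C, Iic γ := by
    intro δ _
    obtain ⟨γ, hγ, hle⟩ := hcon δ
    exact mem_iUnion₂.2 ⟨γ, hγ, hle⟩
  have hcount : (univ : Set W).Countable := by
    refine (hC.biUnion fun γ _ => ?_).mono huniv
    rw [← Iio_insert]
    exact (countable_Iio γ).insert γ
  have h1 : Cardinal.mk W ≤ Cardinal.aleph0 :=
    Cardinal.mk_le_aleph0_iff.2 (countable_univ_iff.1 hcount)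
  rw [mk_W] at h1
  exact absurd h1 (not_le.2 Cardinal.aleph0_lt_aleph_one)

/-- The coherent system on `ω₁`. -/
theorem exists_system : Nonempty (RhoSystem W) := by
  obtain ⟨F, hF⟩ := exists_coherent (Ω := W) countable_Iio
  exact ⟨⟨F, hF⟩⟩

variable (R : RhoSystem W)

theorem mk_K : Cardinal.mk R.K = Cardinal.aleph 1 := by
  classical
  apply le_antisymm
  · -- upper bound
    let g : Finset W ⊕ Option W → Set W := fun s => match s with
      | Sum.inl G => (G : Set W)
      | Sum.inr none => univ
      | Sum.inr (some a) => Iio a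
    have hsurj : ∀ z : R.K, ∃ s, g s = z.set := by
      intro z
      rcases finite_or_lower z with h | h
      · exact ⟨Sum.inl h.toFinset, h.coe_toFinset⟩
      · by_cases huniv : z.set = univ
        · exact ⟨Sum.inr none, huniv.symm⟩
        · have hne : (z.set)ᶜ.Nonempty := nonempty_compl.2 huniv
          refine ⟨Sum.inr (some ((wellFounded_lt (α := W)).min _ hne)), ?_⟩
          ext ξ
          change ξ < _ ↔ _
          constructor
          · intro hξ
            by_contra hcon
            exact (wellFounded_lt (α := W)).not_lt_min _ hcon hξ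
          · intro hξ
            by_contra hcon
            exact (wellFounded_lt (α := W)).min_mem _ hne (h (not_lt.1 hcon) hξ)
    choose s hs using hsurj
    have hinj : Function.Injective s := fun z w hzw =>
      K.ext_set (by rw [← hs z, ← hs w, hzw])
    refine (Cardinal.mk_le_of_injective hinj).trans ?_
    have : Infinite W := by
      rw [Cardinal.infinite_iff, mk_W]
      exact Cardinal.aleph0_le_aleph 1
    have h1 : Cardinal.mk (Finset W) = Cardinal.aleph 1 := by
      rw [Cardinal.mk_finset_of_infinite, mk_W]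
    rw [Cardinal.mk_sum, Cardinal.lift_id, Cardinal.lift_id, h1, Cardinal.mk_option, mk_W]
    have h2 : Cardinal.aleph0 ≤ Cardinal.aleph 1 := Cardinal.aleph0_le_aleph 1
    rw [Cardinal.add_one_eq h2, Cardinal.add_eq_self h2]
  · refine mk_W.symm.le.trans ?_
    refine Cardinal.mk_le_of_injective (f := fun a : W => R.pt (Iic a) (inK_Iic a)) ?_
    intro a b hab
    have h : (R.pt (Iic a) (inK_Iic a)).set = (R.pt (Iic b) (inK_Iic b)).set := by
      simp only at hab
      rw [hab]
    rw [pt_set, pt_set] at h
    exact Iic_injective h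

open Ordinal in
/-- The closed interval `[0, ω₁]` of ordinals with its order topology. -/
abbrev Seg : Type 1 := Set.Iic (Ordinal.omega 1 : Ordinal.{0})

theorem inK_seg (α : Seg) : R.InK {ξ : W | Ordinal.typein (α := W) (· < ·) ξ < α.1} :=
  inK_lower fun _ _ h1 h2 =>
    lt_of_le_of_lt ((Ordinal.typein_le_typein (· < ·)).2 (not_lt.2 h1)) h2

/-- The initial segment of type `α` as a point of `K`. -/
noncomputable def seg (α : Seg) : R.K := R.pt _ (inK_seg R α)

theorem mem_seg (α : Seg) (ξ : W) :
    ξ ∈ (seg R α).set ↔ Ordinal.typein (α := W) (· < ·) ξ < α.1 := by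
  unfold seg
  rw [pt_set]
  rfl

theorem seg_injective : Function.Injective (seg R) := by
  have key : ∀ α β : Seg, α.1 < β.1 → seg R α ≠ seg R β := by
    intro α β hlt heq
    have h1 : α.1 < Ordinal.type (α := W) (· < ·) := by
      have h2 : Ordinal.type (α := W) (· < ·) = Ordinal.omega 1 := by
        rw [Ordinal.type_toType, Cardinal.ord_aleph]
      rw [h2]
      exact lt_of_lt_of_le hlt β.2
    obtain ⟨ξ, hξ⟩ := Ordinal.typein_surj (· < ·) h1
    have h3 : ξ ∈ (seg R β).set := (mem_seg R β ξ).2 (by rw [hξ]; exact hlt)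
    rw [← heq] at h3
    have h4 := (mem_seg R α ξ).1 h3
    rw [hξ] at h4
    exact lt_irrefl _ h4
  intro α β h
  rcases lt_trichotomy α.1 β.1 with h1 | h1 | h1
  · exact absurd h (key α β h1)
  · exact Subtype.ext h1
  · exact absurd h.symm (key β α h1)

theorem seg_continuous : Continuous (seg R) := by
  have h : Continuous fun α : Seg => (seg R α).1 := by
    refine continuous_pi fun ξ => ?_
    have h1 : IsOpen {α : Seg | (seg R α).1 ξ = true} := by
      have : {α : Seg | (seg R α).1 ξ = true} =
          {α : Seg | Ordinal.typein (α := W) (· < ·) ξ < α.1} := by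
        ext α
        exact mem_seg R α ξ
      rw [this]
      have h0 : IsOpen (Ioi (Ordinal.typein (α := W) (· < ·) ξ)) := isOpen_Ioi
      exact h0.preimage (continuous_subtype_val (p := fun x => x ∈ Iic (Ordinal.omega 1)))
    have h2 : IsOpen {α : Seg | (seg R α).1 ξ = false} := by
      have : {α : Seg | (seg R α).1 ξ = false} =
          {α : Seg | α.1 < Order.succ (Ordinal.typein (α := W) (· < ·) ξ)} := by
        ext α
        have h3 := mem_seg R α ξ
        have h4 : (ξ ∈ (seg R α).set) ↔ (seg R α).1 ξ = true := Iff.rfl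
        simp only [mem_ofPred_eq]
        rw [Order.lt_succ_iff, ← not_lt, ← h3, h4, Bool.not_eq_true]
      rw [this]
      have h0 : IsOpen (Iio (Order.succ (Ordinal.typein (α := W) (· < ·) ξ))) := isOpen_Iio
      exact h0.preimage (continuous_subtype_val (p := fun x => x ∈ Iic (Ordinal.omega 1)))
    have h5 : Continuous (fun α : Seg => ((seg R α).1 ξ : Bool)) := by
      rw [continuous_discrete_rng]
      intro b
      cases b
      · exact h2
      · exact h1
    exact h5
  exact Continuous.subtype_mk h fun α => (seg R α).2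

theorem seg_isClosedEmbedding : IsClosedEmbedding (seg R) := by
  have : CompactSpace Seg := by
    have h1 : IsCompact (Set.Iic (Ordinal.omega 1 : Ordinal.{0})) := by
      have : Set.Iic (Ordinal.omega 1 : Ordinal.{0}) = Set.Icc ⊥ (Ordinal.omega 1) := by
        ext x; simp
      rw [this]
      exact isCompact_Icc
    exact isCompact_iff_compactSpace.1 h1
  exact (seg_continuous R).isClosedEmbedding (seg_injective R)

theorem not_eberlein' (E : Type) [NormedAddCommGroup E] [NormedSpace ℝ E]
    (S : Set (WeakSpace ℝ E)) (h : R.K ≃ₜ S) : False := by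
  refine not_eberlein (Ω := W) (fun γ => R.pt (Iio γ) (inK_Iio γ))
    (R.pt univ (inK_lower isLowerSet_univ)) ?_ ?_ E S h
  · intro V hV hz
    obtain ⟨T, hT⟩ := exists_finset_of_isOpen hV hz
    obtain ⟨δ, hδ⟩ := exists_gt_countable (T : Set W) T.countable_toSet
    refine ⟨δ, hT _ fun ξ hξ => ?_⟩
    rw [pt_set, pt_set]
    exact ⟨fun _ => mem_univ _, fun _ => hδ ξ hξ⟩
  · intro C hC
    obtain ⟨δ, hδ⟩ := exists_gt_countable C hC
    refine ⟨{x : R.K | δ ∈ x.set}, (isClopen_mem δ).isOpen, ?_, fun γ hγ hmem => ?_⟩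
    · show δ ∈ (R.pt univ (inK_lower isLowerSet_univ)).set
      rw [pt_set]; exact mem_univ _
    · have h1 : δ ∈ (R.pt (Iio γ) (inK_Iio γ)).set := hmem
      rw [pt_set] at h1
      exact absurd (hδ γ hγ) (not_lt.2 (le_of_lt h1))

end Pool.Agent.H60.Godefroy
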