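import Pool.Agent.Godefroy.Functionals
import Pool.Agent.Godefroy.Scattered

set_option autoImplicit false

namespace Pool.Agent.H60.Godefroy

open Set Pool.Agent.Godefroy Pool.Agent.Godefroy.RhoSystem

variable {Ω : Type} [LinearOrder Ω] {R : RhoSystem Ω}

/-- Every functional of the basis is a combination of four point evaluations. -/
theorem fnl_eq (i : R.Idx) : ∃ (z : Fin 4 → R.K) (c : Fin 4 → ℤ), (∀ k, |c k| ≤ 1) ∧
    ∀ y : C(R.K, ℝ), R.fnl i y = ∑ k, (c k : ℝ) * y (z k) := by
  classical
  rcases i with G | γ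
  · by_cases hne : G.1.Nonempty
    · by_cases hinf : (Iio (G.1.max' hne)).Infinite
      · refine ⟨![R.pt G.1 G.2, R.pt _ (inK_erase G.2 hne),
          R.pt (Iic (G.1.max' hne)) (inK_Iic _), R.pt (Iio (G.1.max' hne)) (inK_Iio _)],
          ![1, -1, -1, 1], ?_, ?_⟩
        · intro k
          fin_cases k <;> simp
        · intro y
          have h : R.fnl (Sum.inl G) = ev (R.pt G.1 G.2) - ev (R.pt _ (inK_erase G.2 hne)) -
              R.psi (G.1.max' hne) := by
            simp only [fnl, phi]
            rw [dif_pos hne, if_pos hinf]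
          rw [h]
          simp only [psi, sub_apply, ev_apply, Fin.sum_univ_four, Matrix.cons_val_zero,
            Matrix.cons_val_one, Matrix.cons_val_two, Matrix.cons_val_three, Matrix.head_cons,
            Matrix.tail_cons]
          simp
          ring
      · refine ⟨![R.pt G.1 G.2, R.pt _ (inK_erase G.2 hne),
          R.pt (Iic (G.1.max' hne)) (inK_Iic _), R.pt (Iio (G.1.max' hne)) (inK_Iio _)],
          ![1, -1, 0, 0], ?_, ?_⟩
        · intro k
          fin_cases k <;> simp
        · intro y
          have h : R.fnl (Sum.inl G) = ev (R.pt G.1 G.2) - ev (R.pt _ (inK_erase G.2 hne)) := by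
            simp only [fnl, phi]
            rw [dif_pos hne, if_neg hinf, sub_zero]
          rw [h]
          simp [Fin.sum_univ_four, sub_apply, ev_apply]
          ring
    · refine ⟨![R.pt G.1 G.2, R.pt G.1 G.2, R.pt G.1 G.2, R.pt G.1 G.2],
        ![1, 0, 0, 0], ?_, ?_⟩
      · intro k
        fin_cases k <;> simp
      · intro y
        have h : R.fnl (Sum.inl G) = ev (R.pt G.1 G.2) := by
          simp only [fnl, phi]
          rw [dif_neg hne]
        rw [h]
        simp [Fin.sum_univ_four, ev_apply]
  · refine ⟨![R.pt (Iic γ.1) (inK_Iic _), R.pt (Iio γ.1) (inK_Iio _),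
      R.pt (Iic γ.1) (inK_Iic _), R.pt (Iio γ.1) (inK_Iio _)],
      ![1, -1, 0, 0], ?_, ?_⟩
    · intro k
      fin_cases k <;> simp
    · intro y
      simp [fnl, psi, Fin.sum_univ_four, sub_apply, ev_apply]
      ring

/-- Every vector of the basis is the characteristic function of a nonempty clopen set. -/
theorem vec_eq (i : R.Idx) : ∃ U : Set R.K, IsClopen U ∧ U.Nonempty ∧
    ∀ z, R.vec i z = U.indicator (fun _ => (1 : ℝ)) z := by
  classical
  rcases i with G | γ
  · have hU : ∀ z : R.K, R.U G.1 z = if Init G.1 z.set then 1 else 0 := fun z => U_apply G.1 z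
    refine ⟨{z : R.K | Init G.1 z.set}, ⟨?_, ?_⟩, ⟨R.pt G.1 G.2, ?_⟩, ?_⟩
    · have : {z : R.K | Init G.1 z.set} = (R.U G.1) ⁻¹' {(1 : ℝ)} := by
        ext z
        simp only [mem_ofPred_eq, mem_preimage, mem_singleton_iff, hU]
        by_cases h : Init G.1 z.set
        · simp [h]
        · simp [h]
      rw [this]
      exact isClosed_singleton.preimage (R.U G.1).continuous
    · have : {z : R.K | Init G.1 z.set} = (R.U G.1) ⁻¹' (Ioi (1 / 2 : ℝ)) := by
        ext z
        simp only [mem_ofPred_eq, mem_preimage, mem_Ioi, hU]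
        by_cases h : Init G.1 z.set
        · simp only [h, if_true, true_iff]; norm_num
        · simp only [h, if_false, false_iff]; norm_num
      rw [this]
      exact isOpen_Ioi.preimage (R.U G.1).continuous
    · rw [mem_ofPred_eq, pt_set]
      exact ⟨fun ξ hξ => hξ, fun ξ b hξ _ _ => hξ⟩
    · intro z
      rw [indicator_apply]
      exact hU z
  · refine ⟨{z : R.K | γ.1 ∈ z.set}, isClopen_mem γ.1, ⟨R.pt (Iic γ.1) (inK_Iic _), ?_⟩, ?_⟩
    · rw [mem_ofPred_eq, pt_set]
      exact mem_Iic.2 le_rfl
    · intro z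
      rw [indicator_apply]
      exact pi_apply γ.1 z

/-- The norm is attained up to every smaller constant by evaluations at finite points. -/
theorem one_norming (y : C(R.K, ℝ)) (t : ℝ) (ht : t < ‖y‖) :
    ∃ g ∈ Submodule.span ℝ (range R.fnl), ‖g‖ ≤ 1 ∧ t < |g y| := by
  rcases lt_or_ge t 0 with h0 | h0
  · refine ⟨0, Submodule.zero_mem _, ?_, lt_of_lt_of_le h0 (abs_nonneg _)⟩
    refine ContinuousLinearMap.opNorm_le_bound _ zero_le_one fun f => ?_
    rw [zero_apply, norm_zero, one_mul]; exact norm_nonneg _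
  have hex : ∃ x : R.K, t < ‖y x‖ := by
    by_contra hcon
    push Not at hcon
    have := (ContinuousMap.norm_le y h0).2 hcon
    linarith
  obtain ⟨x, hx⟩ := hex
  have hopen : IsOpen {z : R.K | t < ‖y z‖} :=
    isOpen_lt continuous_const (y.continuous.norm)
  obtain ⟨G, h, hG⟩ := exists_finite_mem hopen (x := x) hx
  refine ⟨ev (R.pt G h), ev_mem G h, norm_ev_le _, ?_⟩
  rw [ev_apply]
  exact hG

/-- A point of `K` is finite or an initial segment. -/
theorem finite_or_lower (z : R.K) : z.set.Finite ∨ IsLowerSet z.set := by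
  by_cases h : z.set.Finite
  · exact Or.inl h
  · exact Or.inr (lower_of_infinite z.inK h)

end Pool.Agent.H60.Godefroy
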